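import Mathlib
import Pool.Agent.D0H77.CA.SpMod

/-!
# MP_c69980_ag, Q1: few monomials that are high powers, dimension-free

Let `X = {F_i = 0 for all i, x_j ≠ 0 for all j in U}` in `P^n`, where every `F_i` is a form with at
most `s` monomials in which the exponents of the variables `x_j`, `j` not in `U`, are divisible by
some `N_i ≥ N`, with `N ≥ max (1, (s + 1) (s - 1) (s - 2) / 2)`; this number does not depend on the
dimension of the projective space or on the number of equations.

1. Let `Δ` be any closed subset, the set of common zeros of a set `A` of forms. The following are
   equivalent: all entire curves in `X` lie in `Δ`; all closed subvarieties of `X` of positive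
   dimension which are not contained in `Δ` are of log general type; all varieties with a generically
   finite morphism to `X` whose image is not contained in `Δ` are of log general type; the images of
   all nonconstant morphisms from the multiplicative group to `X` lie in `Δ`.
2. If `X` is irreducible, the following are equivalent: all entire curves in `X` lie in a proper
   closed subset; outside a proper closed subset there are only finitely many morphisms from every
   affine variety `Y` to `X` with a given value at a given point of `Y`; `X` is of log general type;
   outside a proper closed subset, all varieties with a generically finite morphism to `X` (in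
   particular all subvarieties of `X`) are of log general type; `X` is bounded modulo a proper closed
   subset; the same with a linear bound `B max (2 g - 2 + |S|, 0)`, uniform in the curve.

The starting theorem `PointedCurves` needs exponents at least `n (s + 1) (s - 1) (s - 2) / 2` for the
equivalence with log general type, as the other starting theorems on log general type of such
varieties. The proof uses towers of relative logarithmic pluricanonical forms: the forms of the next
level are only contracted with vector fields which kill the functions of the previous levels, and
such a vector field, if it is regular, is logarithmic at all divisors at which one of these functions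
has a zero or a pole. Thus the orders need to jump only by the weight of one level, and not by the
sum of all weights. For sums of powers of linear forms see `NestedDimensionFree`.
-/

set_option autoImplicit false

namespace Pool.Agent.Results.MP_c69980_ag.DimensionFreeConditions

open FF MvPolynomial Pool.Agent.W603.LV Pool.Agent.W603.GW Pool.Agent.W602.GT
  Pool.Agent.H159R3.GGLLog Pool.Agent.D0H77.CA

theorem result {n s N : ℕ} {ι : Type} (U : Set (Fin (n + 1)))
    (F : ι → MvPolynomial (Fin (n + 1)) ℂ) (hF : ∀ e, IsPowSparse U s N (F e)) (hN1 : 1 ≤ N)
    (hN : (s + 1) * ((s - 1) * (s - 2) / 2) ≤ N) :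
    -- modulo an arbitrary closed subset
    (∀ A : Set (MvPolynomial (Fin (n + 1)) ℂ), (∀ G ∈ A, ∃ d, G.IsHomogeneous d) →
      [ -- entire curves
        ∀ f, EntireCurve U F f → ∀ z, ∀ G ∈ A, eval (f z) G = 0,
        -- closed subvarieties
        ∀ (K : Type) [Field K] [Algebra ℂ K] (w : ℕ) (y : Fin (n + 1) → K), 1 ≤ w →
          SubVarU U F K w y → (∃ G ∈ A, val y G ≠ 0) → LogGeneralType ℂ K w (OffU U y),
        -- varieties with a generically finite morphism to `X`
        ∀ (K : Type) [Field K] [Algebra ℂ K] (w : ℕ) (y : Fin (n + 1) → K)
          (Bd : Place ℂ K → Prop),
          y ≠ 0 → (∀ j ∈ U, y j ≠ 0) → (∀ i, val y (F i) = 0) →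
          Algebra.IsAlgebraic (coords ℂ y) K → Algebra.trdeg ℂ K = w → (∃ G ∈ A, val y G ≠ 0) →
          (∀ P, OffU U y P → Bd P) → LogGeneralType ℂ K w Bd,
        -- images of the multiplicative group
        ∀ v, TorusCurve U F v → ∀ t, t ≠ 0 → ∀ G ∈ A, eval (v t) G = 0].TFAE) ∧
    -- the conditions
    (Finite ι → Irred U F → ∀ (K : Type) [Field K] [Algebra ℂ K] (w : ℕ) (y : Fin (n + 1) → K),
      SubVarU U F K w y → GenericU U F y →
      [PseudoBrody U F, Pool.Agent.W602.RG.FewPointedMorphisms U F,
        LogGeneralType ℂ K w (OffU U y), StronglyLogGeneral U F,
        Pool.Agent.W603.CX.BoundedModulo U F, Pool.Agent.W603.CX.LinearlyBounded U F].TFAE) :=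
  ⟨fun A hA => sparse_mod U F hF hN1 hN A hA, fun _ hirr K _ _ w y hy hgen =>
    sparse_conditions U F hF hN1 hN hirr hy hgen⟩

end Pool.Agent.Results.MP_c69980_ag.DimensionFreeConditions
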