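import Mathlib
import Pool.Agent.D0H77.CA.NCond

/-!
# MP_c69980_ag, Q1: nested sums of high powers of linear forms, dimension-free

Let `X = {F_i = 0 for all i, Q_j ≠ 0 for all j}` in `P^n`, where the `F_i` and the finitely many
`Q_j` are nested sums of high powers of linear forms: a gate of level `0` is a linear form, a gate
of level `l + 1` is a sum of at most `S / 2` terms `c g ^ e_l`, `g` a gate of level `l`, and the
`F_i` (the `Q_j`) are sums of at most `S` (at most `S - 1`) terms `c g ^ e`, `g` a gate. All
exponents are at least `N ≥ max (1, (S + 1) (S - 1) (S - 2) / 2)`. This bound depends only on the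
number of summands: not on the dimension, the number of levels (which is arbitrary), the number of
equations or the number of boundary divisors. Sums of at most `S` powers of linear forms are the
case of one level.

1. Let `Δ` be any closed subset, the set of common zeros of a set `A` of forms. The following are
   equivalent: all entire curves in `X` lie in `Δ`; for every point `x` of `X` outside `Δ` there are
   only finitely many morphisms from the multiplicative group to `X` which map `1` to `x`; all closed
   subvarieties of `X` of positive dimension which are not contained in `Δ` are of log general type;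
   all varieties with a generically finite morphism to `X` with image not in `Δ` are of log general
   type; `X` is bounded modulo `Δ`; the same with a linear bound `B max (2 g - 2 + |S|, 0)` for the
   degrees of all maps from all curves; the images of all nonconstant morphisms from the
   multiplicative group to `X` lie in `Δ`.
2. If `X` is irreducible, then `X` is of log general type if and only if some proper closed subset
   contains all entire curves in `X` (and thus has all the properties in part 1).

The starting theorem `NestedConditions` proves part 2 for exponents at least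
`(n + 1) (h + 1) (2 s + 1) ^ 5`, where `h` is the number of levels and `s` the number of summands,
and it contains no condition on log general type in part 1; `WaringConditions` is about one level,
with exponents at least `n (S + 1) (S - 1) (S - 2) / 2`. The proof here uses towers: the relations
of the next gate are used only relative to the field of constants of the previous relations. At a
divisor where one of these constants has a zero or a pole, every regular vector field which kills
the constants is logarithmic; at the other divisors the orders of the terms of the next relation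
jump by the exponent of the gate. So the exponents need only be large compared with the weight of
the forms of one relation.
-/

set_option autoImplicit false

namespace Pool.Agent.Results.MP_c69980_ag.NestedDimensionFree

open FF MvPolynomial Pool.Agent.W603.LV Pool.Agent.W603.PV Pool.Agent.W602.GT
  Pool.Agent.H159R3.War Pool.Agent.H159R3.WarLog Pool.Agent.W603.GW Pool.Agent.W603.GY
  Pool.Agent.W603.CXQ Pool.Agent.D0H77.CA

theorem result {n S N h : ℕ} {ι κ : Type} [Finite κ] {F : ι → MvPolynomial (Fin (n + 1)) ℂ}
    {Q : κ → MvPolynomial (Fin (n + 1)) ℂ} (hF : ∀ i, IsNestedSum S S N h (F i))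
    (hQ : ∀ j, IsNestedSum (S - 1) S N h (Q j)) (hN1 : 1 ≤ N)
    (hN : (S + 1) * ((S - 1) * (S - 2) / 2) ≤ N) :
    -- modulo an arbitrary closed subset
    (∀ A : Set (MvPolynomial (Fin (n + 1)) ℂ), (∀ G ∈ A, ∃ d, G.IsHomogeneous d) →
      [ -- entire curves
        ∀ f, EntireCurve F Q f → ∀ z, ∀ G ∈ A, eval (f z) G = 0,
        -- pointed maps from the multiplicative group
        ∀ x ∈ Pts F Q, (∃ G ∈ A, eval x G ≠ 0) → (PointedMaps F Q x).Finite,
        -- closed subvarieties
        ∀ (K : Type) [Field K] [Algebra ℂ K] (w : ℕ) (y : Fin (n + 1) → K), 1 ≤ w →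
          SubVarQ F Q K w y → (∃ G ∈ A, val y G ≠ 0) → LogGeneralType ℂ K w (OffAny Q y),
        -- varieties with a generically finite morphism to `X`
        ∀ (K : Type) [Field K] [Algebra ℂ K] (w : ℕ) (y : Fin (n + 1) → K)
          (Bd : Place ℂ K → Prop), MapQ F Q K w y → (∃ G ∈ A, val y G ≠ 0) →
          (∀ P, OffAny Q y P → Bd P) → LogGeneralType ℂ K w Bd,
        -- boundedness
        ∀ (L : Type) [Field L] [Algebra ℂ L] [IsFF ℂ L] (S : Finset (Place ℂ L)), ∃ B : ℤ,
          ∀ f : Fin (n + 1) → L, IsMap F Q S f → (∃ G ∈ A, aeval f G ≠ 0) → pht ℂ f ≤ B,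
        -- linear bounds for the degrees
        ∃ B : ℕ, ∀ (L : Type) [Field L] [Algebra ℂ L] [IsFF ℂ L] (S : Finset (Place ℂ L))
          (f : Fin (n + 1) → L), IsMap F Q S f → (∃ G ∈ A, aeval f G ≠ 0) →
            pht ℂ f ≤ B * max (canDeg ℂ L + S.card) 0,
        -- images of the multiplicative group
        ∀ x ∈ gmPoints F Q, ∀ G ∈ A, eval x G = 0].TFAE) ∧
    -- log general type
    (∀ (K : Type) [Field K] [Algebra ℂ K] (w : ℕ) (y : Fin (n + 1) → K),
      SubVarQ F Q K w y → GenericQ F Q y →
      (LogGeneralType ℂ K w (OffAny Q y) ↔ PseudoBrody F Q)) := by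
  have hmod := fun A hA => nested_mod hF hQ hN1 hN A hA
  refine ⟨hmod, fun K _ _ w y hy hg => ⟨fun h => ?_, ?_⟩⟩
  · have hsq := sq_boundN hN1 hN
    have hF' : ∀ i, Pool.Agent.TH710.NW.Tower (F i) := fun i => tower_ofN hsq hN1 (hF i)
    have hQ' : ∀ j, ∃ d, Pool.Agent.TH710.NW.TowerLog (Q j) d := fun j =>
      towerLog_ofN hsq hN1 (hQ j)
    have h1 := Pool.Agent.TH710.NU.cond_tfae hF' hQ'
    have h2 : PseudoBrody F Q ↔ gmPoints F Q ≠ Pts F Q := h1.out 0 4
    exact h2.2 (Pool.Agent.TH710.NW.ne_of_lgt (fun i => (hF' i).stab)
      (fun j => (hQ' j).imp fun _ h => h.stab) hy hg h)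
  · rintro ⟨G, hG, ⟨x, hx, hxG⟩, hE⟩
    have h1 : ∀ (K : Type) [Field K] [Algebra ℂ K] (w : ℕ) (y : Fin (n + 1) → K)
        (Bd : Place ℂ K → Prop), MapQ F Q K w y → (∃ G' ∈ ({G} : Set _), val y G' ≠ 0) →
        (∀ P, OffAny Q y P → Bd P) → LogGeneralType ℂ K w Bd :=
      ((hmod {G} (fun G' hG' => by rw [Set.mem_singleton_iff] at hG'; rw [hG']; exact hG)).out 0
        3).1 (fun f hf z G' hG' => by
          rw [Set.mem_singleton_iff] at hG'
          rw [hG']
          exact hE f hf z)
    exact h1 K w y _ ⟨hy.ne, hy.mem, hy.off, by
      rw [hy.gen]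
      infer_instance, hy.dim⟩ ⟨G, rfl, fun h0 => hxG (hg G hG h0 x hx)⟩ fun P hP => hP

end Pool.Agent.Results.MP_c69980_ag.NestedDimensionFree
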