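import Pool.Agent.D0H85.AC.FinN

set_option autoImplicit false

/-!
# Varieties of log-general type are bounded modulo a proper closed subset for sparse maps

Let `k` be an algebraically closed field of characteristic zero and `U = V \ Y` a quasi-projective
variety over `k`, where `V` is a closed subvariety of `ℙ^n`, with function field `E` and generic point
`y`, and where `Y`, of any codimension, is the set of common zeros on `V` of forms `F j`.

A smooth projective curve over `k` is given by its function field `K`; `S` is a finite set of points of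
the curve, `pht k x` is the degree of the map with the homogeneous coordinates `x`, and `canDeg k K` is
`2 g - 2`. A morphism from the curve minus `S` to `U` is called `N`-sparse if it has homogeneous
coordinates that are sums of `N` units of the curve minus `S`, such that the `F j` have no common zeros
at these coordinates.

If `U` is of log-general type, then for every `N` there are a proper closed subset `Δ` of `V` and a
number `C` such that all `N`-sparse maps to `U`, from all curves minus `S`, with image not contained in
`Δ` have degree at most `C * max (2 g - 2 + |S|) 0`. More generally, this is true if and only if `U` is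
not covered by a family of nonconstant images of the punctured line.
-/

namespace Pool.Agent.Results.MP_c69980_ag.SparseBoundedness

open FF
open Pool.Agent.W603.LV (canDeg)
open Pool.Agent.W603.PV (pht)
open Pool.Agent.W602.GT (coords LogGeneralType)

section geometry

variable {k : Type} [Field k] {n w : ℕ} {E : Type} [Field E] [Algebra k E]

/-- `P` is a prime divisor of a normal model of the function field `E` whose centre on the closed
subvariety `V` of `ℙ^n` with generic point `y` lies in the set `Y` of the common zeros of the forms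
`F j`, of degrees `d j`; that is, `P` has no centre on `U = V \ Y`. -/
def NoCentre (F : Fin w → MvPolynomial (Fin (n + 1)) k) (d : Fin w → ℕ) (y : Fin (n + 1) → E)
    (P : Place k E) : Prop :=
  ∃ i, y i ≠ 0 ∧ ∀ j, MvPolynomial.aeval y (F j) = 0 ∨
    d j * P.ord (y i) < P.ord (MvPolynomial.aeval y (F j))

/-- `U = V \ Y` is covered by a family of nonconstant images of the punctured line: over some
extension `M` of `k` there is a nonconstant morphism `t ↦ (W 0 (t) : … : W n (t))` from the punctured
line to `U`, `W i ∈ M[t]`, whose image is not contained in any closed subvariety of `V`, defined over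
`k`, other than `V`. -/
def Covered (F : Fin w → MvPolynomial (Fin (n + 1)) k) (y : Fin (n + 1) → E) : Prop :=
  ∃ (M : Type) (_ : Field M) (_ : Algebra k M) (W : Fin (n + 1) → Polynomial M),
    (∀ g : MvPolynomial (Fin (n + 1)) k, (∃ e, g.IsHomogeneous e) →
      (MvPolynomial.aeval y g = 0 ↔ (MvPolynomial.aeval W g : Polynomial M) = 0)) ∧
    (∀ t : AlgebraicClosure M, t ≠ 0 →
      ∃ j, Polynomial.aeval t (MvPolynomial.aeval W (F j) : Polynomial M) ≠ 0) ∧
    ∃ i j, W i * Polynomial.C ((W j).eval 1) ≠ W j * Polynomial.C ((W i).eval 1)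

variable (k) in
/-- The point over the extension `K` of `k` with homogeneous coordinates `x` lies on the closed
subvariety `V` of `ℙ^n` with generic point `y`. -/
def OnV {K : Type} [Field K] [Algebra k K] (y : Fin (n + 1) → E) (x : Fin (n + 1) → K) : Prop :=
  ∀ g : MvPolynomial (Fin (n + 1)) k, (∃ e, g.IsHomogeneous e) → MvPolynomial.aeval y g = 0 →
    MvPolynomial.aeval x g = 0

/-- The polynomials `P i`, with at most `N` terms each, define a nonconstant morphism from the
punctured line to `U = V \ Y`. -/
def PuncturedLine (F : Fin w → MvPolynomial (Fin (n + 1)) k) (y : Fin (n + 1) → E) (N : ℕ)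
    (P : Fin (n + 1) → Polynomial k) : Prop :=
  (∀ i, (P i).support.card ≤ N) ∧
  (∀ t : k, t ≠ 0 → OnV k y (fun i => (P i).eval t) ∧
    ∃ j, MvPolynomial.eval (fun i => (P i).eval t) (F j) ≠ 0) ∧
  ∃ s t : k, s ≠ 0 ∧ t ≠ 0 ∧ ∃ i j, (P i).eval s * (P j).eval t ≠ (P j).eval s * (P i).eval t

end geometry

section maps

/-- The function `y` on the curve with function field `K` is a sum of `N` functions, each of which is
zero or has no zeros and no poles outside of `S`. -/
def SumUnits {k K : Type} [Field k] [Field K] [Algebra k K] (S : Finset (Place k K)) (N : ℕ)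
    (y : K) : Prop :=
  ∃ u : Fin N → K, (∀ j, u j ≠ 0 → ∀ P : Place k K, P ∉ S → P.ord (u j) = 0) ∧ y = ∑ j, u j

/-- The functions `x i` are sums of `N` units outside of `S`, and at each point of the curve outside
of `S` some `F j (x)` is not zero. So these are the homogeneous coordinates of a morphism from the
curve without `S` to the complement of the common zeros of the `F j`. -/
def SparseMap {k K : Type} [Field k] [Field K] [Algebra k K] {n w : ℕ}
    (F : Fin w → MvPolynomial (Fin (n + 1)) k) (S : Finset (Place k K)) (N : ℕ)
    (x : Fin (n + 1) → K) : Prop :=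
  (∀ i, SumUnits S N (x i)) ∧ (∃ j, MvPolynomial.aeval x (F j) ≠ 0) ∧
    ∀ P : Place k K, P ∉ S → ∃ j, MvPolynomial.aeval x (F j) ≠ 0 ∧
      P.ord (MvPolynomial.aeval x (F j)) = 0

end maps

/-- **Theorem.** Let `k` be an algebraically closed field of characteristic zero, `V ⊆ ℙ^n` a closed
subvariety over `k` with generic point `y`, and `U = V \ Y`, `Y` the set of the common zeros of the
forms `F j`.

(1) The following are equivalent.
(a) `U` is not covered by a family of nonconstant images of the punctured line.
(b) For every `N` there are a form `H` which does not vanish on `V` and a number `C` such that all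
`N`-sparse maps to `U`, from all curves minus finite sets `S`, whose images do not lie in `H = 0`, have
degree at most `C * max (2 g - 2 + |S|) 0`.
(c) For every `N` there is a form `H` which does not vanish on `V` such that for every finite set `S` of
points of the projective line the degrees of the `N`-sparse maps to `U` from the line minus `S` whose
images do not lie in `H = 0` are bounded.
(d) For every `N` a form `H` which does not vanish on `V` vanishes on the images of all nonconstant maps
with at most `N` terms from the punctured line to `U`.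

(2) If `U` is of log-general type then (b) holds. -/
theorem result (k : Type) [Field k] [CharZero k] [IsAlgClosed k] (n w : ℕ)
    (F : Fin w → MvPolynomial (Fin (n + 1)) k) (d : Fin w → ℕ) (hF : ∀ j, (F j).IsHomogeneous (d j))
    -- the variety `V`
    (E : Type) [Field E] [Algebra k E] (y : Fin (n + 1) → E) :
    List.TFAE [
      ¬ Covered F y,
      ∀ N : ℕ, ∃ (H : MvPolynomial (Fin (n + 1)) k) (e : ℕ), H.IsHomogeneous e ∧
        MvPolynomial.aeval y H ≠ 0 ∧ ∃ C : ℕ, ∀ (K : Type) [Field K] [Algebra k K] [IsFF k K]
          (S : Finset (Place k K)) (x : Fin (n + 1) → K), SparseMap F S N x → OnV k y x →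
            MvPolynomial.aeval x H ≠ 0 → pht k x ≤ C * max (canDeg k K + S.card) 0,
      ∀ N : ℕ, ∃ (H : MvPolynomial (Fin (n + 1)) k) (e : ℕ), H.IsHomogeneous e ∧
        MvPolynomial.aeval y H ≠ 0 ∧ ∀ S : Finset (Place k (RatFunc k)), ∃ B : ℤ,
          ∀ x : Fin (n + 1) → RatFunc k, SparseMap F S N x → OnV k y x →
            MvPolynomial.aeval x H ≠ 0 → pht k x ≤ B,
      ∀ N : ℕ, ∃ (H : MvPolynomial (Fin (n + 1)) k) (e : ℕ), H.IsHomogeneous e ∧
        MvPolynomial.aeval y H ≠ 0 ∧ ∀ P : Fin (n + 1) → Polynomial k, PuncturedLine F y N P →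
          ∀ t, t ≠ 0 → MvPolynomial.eval (fun i => (P i).eval t) H = 0] ∧
    ∀ p : ℕ, Algebra.trdeg k E = p → y ≠ 0 → coords k y = ⊤ →
      LogGeneralType k E p (NoCentre F d y) →
        ∀ N : ℕ, ∃ (H : MvPolynomial (Fin (n + 1)) k) (e : ℕ), H.IsHomogeneous e ∧
          MvPolynomial.aeval y H ≠ 0 ∧ ∃ C : ℕ, ∀ (K : Type) [Field K] [Algebra k K] [IsFF k K]
            (S : Finset (Place k K)) (x : Fin (n + 1) → K), SparseMap F S N x → OnV k y x →
              MvPolynomial.aeval x H ≠ 0 → pht k x ≤ C * max (canDeg k K + S.card) 0 := by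
  have h := Pool.Agent.D0H85.AC.dens_tfaeK F d hF y
  have e2 : (∀ N : ℕ, ∃ (H : MvPolynomial (Fin (n + 1)) k) (e : ℕ), H.IsHomogeneous e ∧
      MvPolynomial.aeval y H ≠ 0 ∧ ∀ P : Fin (n + 1) → Polynomial k, PuncturedLine F y N P →
        ∀ t, t ≠ 0 → MvPolynomial.eval (fun i => (P i).eval t) H = 0) ↔
      ∀ N, Pool.Agent.D0H85.AC.TermFormK F y N := by
    refine forall_congr' fun N => ⟨?_, ?_⟩
    · rintro ⟨H, e, h1, h2, h3⟩
      exact ⟨H, e, h1, h2, fun P hP hn hN => h3 P ⟨hN, fun t ht =>
        ⟨fun g hg h0 => (hP t ht).1 g ⟨hg, h0⟩, (hP t ht).2⟩, hn⟩⟩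
    · rintro ⟨H, e, h1, h2, h3⟩
      exact ⟨H, e, h1, h2, fun P hP => h3 P (fun t ht =>
        ⟨fun g hg => (hP.2.1 t ht).1 g hg.1 hg.2, (hP.2.1 t ht).2⟩) hP.2.2 hP.1⟩
  have h' : List.TFAE [¬ Covered F y, ∀ N, Pool.Agent.D0H85.AC.Unif F y N,
      ∀ N, Pool.Agent.D0H85.AC.Each F y N, ∀ N, Pool.Agent.D0H85.AC.TermFormK F y N] := h
  refine ⟨?_, fun p hp hy hgen hlgt => ?_⟩
  · rw [e2]
    exact h'
  · exact (h'.out 0 1).1 (Pool.Agent.D0H85.SQ.not_covered F d hF hp hy hgen hlgt)

end Pool.Agent.Results.MP_c69980_ag.SparseBoundedness
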