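import Pool.Agent.D0H85.AC.Fin

set_option autoImplicit false

/-!
# Sparse maps from curves to quasi-projective varieties

`U = X \ Y` is a quasi-projective variety over an algebraically closed field `k` of characteristic
zero, where the projective variety `X` is given by the forms in `G` and the closed set `Y`, of any
codimension, is the set of common zeros of the forms `F j` on `X`. The closed subset `Z` of `X` is
given by the forms `H l`.

A smooth projective curve over `k` is given by its function field `K`; `S` is a finite set of points of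
the curve, `pht k x` is the degree of the map with the homogeneous coordinates `x`, and `canDeg k K` is
`2 g - 2`. A morphism from the curve minus `S` to `U` is called sparse if it has homogeneous
coordinates that are sums of `N` units of the curve minus `S`, such that the `F j` have no common zeros
at these coordinates.

The degree of the sparse morphisms to `U` with images outside of `Z` is at most
`C * max (2 g - 2 + |S|) 0`, where `C` depends only on `U`, `Z` and `N`, if and only if `Z` contains the
images of all nonconstant morphisms from the multiplicative group to `U`.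
-/

namespace Pool.Agent.Results.MP_c69980_ag.SparseMapsFromCurves

open FF
open Pool.Agent.W603.LV (canDeg)
open Pool.Agent.W603.PV (pht)

/-- The polynomials `P 0, …, P n` over the extension `Ω` of `k` define a nonconstant morphism
`t ↦ (P 0 (t) : … : P n (t))` from the multiplicative group to `U = X \ Y`. -/
def PuncturedLine {k : Type} [Field k] {n w : ℕ} (G : Set (MvPolynomial (Fin (n + 1)) k))
    (F : Fin w → MvPolynomial (Fin (n + 1)) k) {Ω : Type} [Field Ω] (ψ : k →+* Ω)
    (P : Fin (n + 1) → Polynomial Ω) : Prop :=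
  (∀ t : Ω, t ≠ 0 → (∀ g ∈ G, g.eval₂ ψ (fun i => (P i).eval t) = 0) ∧
    ∃ j, (F j).eval₂ ψ (fun i => (P i).eval t) ≠ 0) ∧
  ∃ s t : Ω, s ≠ 0 ∧ t ≠ 0 ∧ ∃ i j, (P i).eval s * (P j).eval t ≠ (P j).eval s * (P i).eval t

/-- The image of the morphism lies in `Z`. -/
def Inside {k : Type} [Field k] {n r : ℕ} (H : Fin r → MvPolynomial (Fin (n + 1)) k)
    {Ω : Type} [Field Ω] (ψ : k →+* Ω) (P : Fin (n + 1) → Polynomial Ω) : Prop :=
  ∀ t : Ω, t ≠ 0 → ∀ l, (H l).eval₂ ψ (fun i => (P i).eval t) = 0

/-- The function `y` on the curve with function field `K` is a sum of `N` functions, each of which is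
zero or has no zeros and no poles outside of `S`. -/
def SumUnits {k K : Type} [Field k] [Field K] [Algebra k K] (S : Finset (Place k K)) (N : ℕ)
    (y : K) : Prop :=
  ∃ u : Fin N → K, (∀ j, u j ≠ 0 → ∀ P : Place k K, P ∉ S → P.ord (u j) = 0) ∧ y = ∑ j, u j

/-- The functions `x i` are sums of `N` units outside of `S`, and at each point of the curve outside
of `S` some `F j (x)` is not zero. So these are the homogeneous coordinates of a morphism from the
curve without `S` to the complement of the common zeros of the `F j`. -/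
def SparseMap {k K : Type} [Field k] [Field K] [Algebra k K] {n w : ℕ}
    (F : Fin w → MvPolynomial (Fin (n + 1)) k) (S : Finset (Place k K)) (N : ℕ)
    (x : Fin (n + 1) → K) : Prop :=
  (∀ i, SumUnits S N (x i)) ∧ (∃ j, MvPolynomial.aeval x (F j) ≠ 0) ∧
    ∀ P : Place k K, P ∉ S → ∃ j, MvPolynomial.aeval x (F j) ≠ 0 ∧
      P.ord (MvPolynomial.aeval x (F j)) = 0

/-- The point with homogeneous coordinates `x` lies on `X` and outside of `Z`. -/
def OnOff {k K : Type} [Field k] [Field K] [Algebra k K] {n r : ℕ}
    (G : Set (MvPolynomial (Fin (n + 1)) k)) (H : Fin r → MvPolynomial (Fin (n + 1)) k)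
    (x : Fin (n + 1) → K) : Prop :=
  (∀ g ∈ G, MvPolynomial.aeval x g = 0) ∧ ∃ l, MvPolynomial.aeval x (H l) ≠ 0

/-- **Theorem.** Let `k` be an algebraically closed field of characteristic zero, `U = X \ Y` a
quasi-projective variety over `k` and `Z ⊆ X` closed. The following are equivalent.
1. For all algebraically closed extensions `Ω` of `k`, the images of all nonconstant morphisms from
the multiplicative group to `U` over `Ω` lie in `Z`.
2. The same for `k` alone.
3. For all `N` there is `C` such that, for all curves over `k` and all finite sets `S` of points, all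
sparse maps from the curve minus `S` to `U` with image not contained in `Z` have degree at most
`C * max (2 g - 2 + |S|) 0`.
4. For all `N`, all curves and all `S`, the degrees of these maps are bounded. -/
theorem result (k : Type) [Field k] [CharZero k] [IsAlgClosed k] (n w r : ℕ)
    (G : Set (MvPolynomial (Fin (n + 1)) k)) (F : Fin w → MvPolynomial (Fin (n + 1)) k)
    (H : Fin r → MvPolynomial (Fin (n + 1)) k) (hG : ∀ g ∈ G, ∃ d, g.IsHomogeneous d)
    (hF : ∀ j, ∃ d, (F j).IsHomogeneous d) (hH : ∀ l, ∃ d, (H l).IsHomogeneous d) :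
    List.TFAE [
      ∀ (Ω : Type) [Field Ω] [IsAlgClosed Ω] (ψ : k →+* Ω) (P : Fin (n + 1) → Polynomial Ω),
        PuncturedLine G F ψ P → Inside H ψ P,
      ∀ P : Fin (n + 1) → Polynomial k,
        PuncturedLine G F (RingHom.id k) P → Inside H (RingHom.id k) P,
      ∀ N : ℕ, ∃ C : ℕ, ∀ (K : Type) [Field K] [Algebra k K] [IsFF k K] (S : Finset (Place k K))
        (x : Fin (n + 1) → K), SparseMap F S N x → OnOff G H x →
          pht k x ≤ C * max (canDeg k K + S.card) 0,
      ∀ (K : Type) [Field K] [Algebra k K] [IsFF k K] (S : Finset (Place k K)) (N : ℕ), ∃ B : ℤ,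
        ∀ x : Fin (n + 1) → K, SparseMap F S N x → OnOff G H x → pht k x ≤ B] := by
  have h := Pool.Agent.D0H85.AC.tfae G F H hG hF hH
  have e1 : (∀ (Ω : Type) [Field Ω] [IsAlgClosed Ω] (ψ : k →+* Ω)
      (P : Fin (n + 1) → Polynomial Ω), PuncturedLine G F ψ P → Inside H ψ P) ↔
      Pool.Agent.D0H85.SP.CurvesIn G F H :=
    ⟨fun h Ω _ _ ψ P h1 h2 => h Ω ψ P ⟨h1, h2⟩, fun h Ω _ _ ψ P h1 => h Ω ψ P h1.1 h1.2⟩
  have e2 : (∀ P : Fin (n + 1) → Polynomial k,
      PuncturedLine G F (RingHom.id k) P → Inside H (RingHom.id k) P) ↔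
      Pool.Agent.D0H85.AC.CurvesInK G F H :=
    ⟨fun h P h1 h2 => h P ⟨h1, h2⟩, fun h P h1 => h P h1.1 h1.2⟩
  have e3 : (∀ N : ℕ, ∃ C : ℕ, ∀ (K : Type) [Field K] [Algebra k K] [IsFF k K]
      (S : Finset (Place k K)) (x : Fin (n + 1) → K), SparseMap F S N x → OnOff G H x →
        pht k x ≤ C * max (canDeg k K + S.card) 0) ↔ Pool.Agent.D0H85.AC.Bounded G F H := by
    constructor
    · intro h N
      obtain ⟨C, hC⟩ := h N
      exact ⟨C, fun K _ _ _ S x h1 h2 h3 => hC K S x h1 ⟨h2, h3⟩⟩
    · intro h N
      obtain ⟨C, hC⟩ := h N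
      exact ⟨C, fun K _ _ _ S x h1 h2 => hC K S x h1 h2.1 h2.2⟩
  have e4 : (∀ (K : Type) [Field K] [Algebra k K] [IsFF k K] (S : Finset (Place k K)) (N : ℕ),
      ∃ B : ℤ, ∀ x : Fin (n + 1) → K, SparseMap F S N x → OnOff G H x → pht k x ≤ B) ↔
        Pool.Agent.D0H85.AC.BoundedEach G F H := by
    constructor
    · intro h K _ _ _ S N
      obtain ⟨B, hB⟩ := h K S N
      exact ⟨B, fun x h1 h2 h3 => hB x h1 ⟨h2, h3⟩⟩
    · intro h K _ _ _ S N
      obtain ⟨B, hB⟩ := h K S N
      exact ⟨B, fun x h1 h2 => hB x h1 h2.1 h2.2⟩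
  rw [e1, e2, e3, e4]
  exact h

end Pool.Agent.Results.MP_c69980_ag.SparseMapsFromCurves
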